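import Pool.Agent.L0h18.FS.Defs

/-!
# FS: the module STEP (for helper18)
-/

set_option autoImplicit false

namespace Pool.Agent.L0h39.FS

open Nat.Partrec (Code)
open Pool.Agent.L0h18.FS

/-- the range of `φ_e` -/
def rng (e : ℕ) : Set ℕ := {v | ∃ n, v ∈ φ e n}

theorem jump_rng {E : ℕ → ℕ → Prop} (hE : Equivalence E) (e e' : ℕ) : jump E e e' ↔
    (∀ v ∈ rng e, ∃ w ∈ rng e', E v w) ∧ (∀ v ∈ rng e', ∃ w ∈ rng e, E v w) := by
  rw [jump_iff hE]
  unfold rng
  simp only [Set.mem_ofPred_eq]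
  constructor
  · rintro ⟨h1, h2⟩
    refine ⟨?_, ?_⟩
    · rintro v ⟨n, hv⟩
      obtain ⟨m, w, hw, h⟩ := h1 n v hv
      exact ⟨w, ⟨m, hw⟩, h⟩
    · rintro v ⟨n, hv⟩
      obtain ⟨m, w, hw, h⟩ := h2 n v hv
      exact ⟨w, ⟨m, hw⟩, h⟩
  · rintro ⟨h1, h2⟩
    refine ⟨?_, ?_⟩
    · intro n v hv
      obtain ⟨w, ⟨m, hw⟩, h⟩ := h1 v ⟨n, hv⟩
      exact ⟨m, w, hw, h⟩
    · intro n v hv
      obtain ⟨w, ⟨m, hw⟩, h⟩ := h2 v ⟨n, hv⟩
      exact ⟨m, w, hw, h⟩

/-- pointwise equivalent total functions have equivalent indices -/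
theorem jump_pointwise {E : ℕ → ℕ → Prop} (hE : Equivalence E) {e e' : ℕ}
    (h : ∀ n, ∃ v ∈ φ e n, ∃ w ∈ φ e' n, E v w) : jump E e e' := by
  rw [jump_iff hE]
  constructor
  · intro n v hv
    obtain ⟨v', hv', w, hw, h1⟩ := h n
    obtain rfl := Part.mem_unique hv hv'
    exact ⟨n, w, hw, h1⟩
  · intro n w hw
    obtain ⟨v, hv, w', hw', h1⟩ := h n
    obtain rfl := Part.mem_unique hw hw'
    exact ⟨n, v, hv, hE.symm h1⟩

/-- the enumeration of the range by stages -/
def enum (e i : ℕ) : Option ℕ := Code.evaln i.unpair.1 (Denumerable.ofNat Code e) i.unpair.2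

theorem enum_comp : Computable₂ enum := by
  have h1 : Computable (fun a : (ℕ × Code) × ℕ => Code.evaln a.1.1 a.1.2 a.2) :=
    Nat.Partrec.Code.primrec_evaln.to_comp
  have h2 : Computable (fun p : ℕ × ℕ => (((p.2.unpair.1, Denumerable.ofNat Code p.1), p.2.unpair.2) :
      (ℕ × Code) × ℕ)) := by
    refine Computable.pair (Computable.pair ?_ ?_) ?_
    · exact Computable.fst.comp (Computable.unpair.comp Computable.snd)
    · exact (Primrec.ofNat Code).to_comp.comp Computable.fst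
    · exact Computable.snd.comp (Computable.unpair.comp Computable.snd)
  exact h1.comp h2

theorem mem_rng_iff (e v : ℕ) : v ∈ rng e ↔ ∃ i, enum e i = some v := by
  unfold rng enum φ
  simp only [Set.mem_ofPred_eq]
  constructor
  · rintro ⟨n, hn⟩
    obtain ⟨k, hk⟩ := Nat.Partrec.Code.evaln_complete.1 hn
    refine ⟨Nat.pair k n, ?_⟩
    rw [Nat.unpair_pair]
    exact hk
  · rintro ⟨i, hi⟩
    exact ⟨i.unpair.2, Nat.Partrec.Code.evaln_sound hi⟩

/-- an index of `0 ↦ u`, `n + 1 ↦ v`, uniformly -/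
theorem exists_two : ∃ t : ℕ → ℕ → ℕ, Computable₂ t ∧ ∀ u v, rng (t u v) = {u, v} := by
  obtain ⟨s, hs, h⟩ := smn (α := ℕ × ℕ)
    (f := fun a n => Part.some (Nat.casesOn n a.1 (fun _ => a.2))) (by
      have : Computable (fun p : (ℕ × ℕ) × ℕ => (Nat.casesOn p.2 p.1.1 (fun _ => p.1.2) : ℕ)) := by
        refine Computable.nat_casesOn Computable.snd (Computable.fst.comp Computable.fst) ?_
        exact Computable.snd.comp (Computable.fst.comp Computable.fst)
      exact this.partrec)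
  refine ⟨fun u v => s (u, v), ?_, ?_⟩
  · exact hs
  · intro u v
    ext x
    unfold rng
    simp only [Set.mem_ofPred_eq, h, Part.mem_some_iff, Set.mem_insert_iff, Set.mem_singleton_iff]
    constructor
    · rintro ⟨n, hn⟩
      cases n with
      | zero => left; exact hn
      | succ n => right; exact hn
    · rintro (rfl | rfl)
      · exact ⟨0, rfl⟩
      · exact ⟨1, rfl⟩

/-- the values of the function with index `U` -/
def uval (c t1 t0 e e' i j : ℕ) : Part ℕ :=
  Nat.casesOn j (Part.some t0) fun j' =>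
    Option.casesOn (enum e i) (Part.some t1) fun v =>
      Option.casesOn (enum e' j') (Part.some t0) fun w => φ c (Nat.pair v w)

theorem stage3 {α : Type} [Primcodable α] {c t0 v : α → ℕ} {o : α → Option ℕ} (hc : Computable c)
    (ht0 : Computable t0) (hv : Computable v) (ho : Computable o) :
    Partrec (fun a => (Option.casesOn (o a) (Part.some (t0 a)) fun w => φ (c a) (Nat.pair (v a) w) : Part ℕ)) := by
  refine Partrec.optionCasesOn_right (g := fun a w => φ (c a) (Nat.pair (v a) w)) ho ht0 ?_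
  have h1 : Computable (fun q : α × ℕ => c q.1) := hc.comp Computable.fst
  have h2 : Computable (fun q : α × ℕ => v q.1) := hv.comp Computable.fst
  have h3 : Computable (fun q : α × ℕ => Nat.pair (v q.1) q.2) := Primrec₂.natPair.to_comp.comp h2 Computable.snd
  exact Partrec₂.comp φ_partrec h1 h3

theorem stage2 {α : Type} [Primcodable α] {c t1 t0 e' j' : α → ℕ} {o : α → Option ℕ} (hc : Computable c)
    (ht1 : Computable t1) (ht0 : Computable t0) (he' : Computable e') (hj' : Computable j') (ho : Computable o) :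
    Partrec (fun a => (Option.casesOn (o a) (Part.some (t1 a)) fun v =>
      Option.casesOn (enum (e' a) (j' a)) (Part.some (t0 a)) fun w => φ (c a) (Nat.pair v w) : Part ℕ)) := by
  refine Partrec.optionCasesOn_right (g := fun a v =>
    Option.casesOn (enum (e' a) (j' a)) (Part.some (t0 a)) fun w => φ (c a) (Nat.pair v w)) ho ht1 ?_
  have h1 : Computable (fun q : α × ℕ => c q.1) := hc.comp Computable.fst
  have h2 : Computable (fun q : α × ℕ => t0 q.1) := ht0.comp Computable.fst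
  have h3 : Computable (fun q : α × ℕ => enum (e' q.1) (j' q.1)) :=
    enum_comp.comp (he'.comp Computable.fst) (hj'.comp Computable.fst)
  exact stage3 h1 h2 Computable.snd h3

theorem uval_partrec {α : Type} [Primcodable α] {c t1 t0 e e' i j : α → ℕ} (hc : Computable c)
    (ht1 : Computable t1) (ht0 : Computable t0) (he : Computable e) (he' : Computable e') (hi : Computable i)
    (hj : Computable j) : Partrec (fun a => uval (c a) (t1 a) (t0 a) (e a) (e' a) (i a) (j a)) := by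
  unfold uval
  refine Partrec.nat_casesOn_right (h := fun a j' =>
      Option.casesOn (enum (e a) (i a)) (Part.some (t1 a)) fun v =>
      Option.casesOn (enum (e' a) j') (Part.some (t0 a)) fun w => φ (c a) (Nat.pair v w)) hj ht0 ?_
  have h1 : Computable (fun q : α × ℕ => c q.1) := hc.comp Computable.fst
  have h2 : Computable (fun q : α × ℕ => t1 q.1) := ht1.comp Computable.fst
  have h3 : Computable (fun q : α × ℕ => t0 q.1) := ht0.comp Computable.fst
  have h4 : Computable (fun q : α × ℕ => e' q.1) := he'.comp Computable.fst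
  have h5 : Computable (fun q : α × ℕ => enum (e q.1) (i q.1)) :=
    enum_comp.comp (he.comp Computable.fst) (hi.comp Computable.fst)
  exact stage2 h1 h2 h3 h4 Computable.snd h5

theorem exists_U : ∃ U : (ℕ × ℕ × ℕ) × ℕ × ℕ × ℕ → ℕ, Computable U ∧ ∀ a j,
    φ (U a) j = uval a.1.1 a.1.2.1 a.1.2.2 a.2.1 a.2.2.1 a.2.2.2 j := by
  apply smn (f := fun (a : (ℕ × ℕ × ℕ) × ℕ × ℕ × ℕ) (j : ℕ) =>
    uval a.1.1 a.1.2.1 a.1.2.2 a.2.1 a.2.2.1 a.2.2.2 j)
  have f1 : Computable (fun q : ((ℕ × ℕ × ℕ) × ℕ × ℕ × ℕ) × ℕ => q.1.1) := Computable.fst.comp Computable.fst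
  have f2 : Computable (fun q : ((ℕ × ℕ × ℕ) × ℕ × ℕ × ℕ) × ℕ => q.1.2) := Computable.snd.comp Computable.fst
  have g1 : Computable (fun q : ((ℕ × ℕ × ℕ) × ℕ × ℕ × ℕ) × ℕ => q.1.1.1) := Computable.fst.comp f1
  have g2 : Computable (fun q : ((ℕ × ℕ × ℕ) × ℕ × ℕ × ℕ) × ℕ => q.1.1.2) := Computable.snd.comp f1
  have g3 : Computable (fun q : ((ℕ × ℕ × ℕ) × ℕ × ℕ × ℕ) × ℕ => q.1.1.2.1) := Computable.fst.comp g2
  have g4 : Computable (fun q : ((ℕ × ℕ × ℕ) × ℕ × ℕ × ℕ) × ℕ => q.1.1.2.2) := Computable.snd.comp g2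
  have k1 : Computable (fun q : ((ℕ × ℕ × ℕ) × ℕ × ℕ × ℕ) × ℕ => q.1.2.1) := Computable.fst.comp f2
  have k2 : Computable (fun q : ((ℕ × ℕ × ℕ) × ℕ × ℕ × ℕ) × ℕ => q.1.2.2) := Computable.snd.comp f2
  have k3 : Computable (fun q : ((ℕ × ℕ × ℕ) × ℕ × ℕ × ℕ) × ℕ => q.1.2.2.1) := Computable.fst.comp k2
  have k4 : Computable (fun q : ((ℕ × ℕ × ℕ) × ℕ × ℕ × ℕ) × ℕ => q.1.2.2.2) := Computable.snd.comp k2
  exact uval_partrec g1 g3 g4 k1 k3 k4 Computable.snd

/-- the values of the index `g'` -/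
def gval (a1 : ℕ) (u1 u2 : ℕ → ℕ) (n : ℕ) : ℕ :=
  Nat.casesOn n a1 (fun n' => Nat.casesOn n'.unpair.1 (u1 n'.unpair.2) (fun _ => u2 n'.unpair.2))

theorem gval_comp {α : Type} [Primcodable α] {a1 : α → ℕ} {u1 u2 : α → ℕ → ℕ} (h1 : Computable a1)
    (h2 : Computable₂ u1) (h3 : Computable₂ u2) : Computable₂ (fun a n => gval (a1 a) (u1 a) (u2 a) n) := by
  unfold gval
  refine Computable.nat_casesOn (f := fun q : α × ℕ => q.2) (g := fun q => a1 q.1) (h := fun q n' =>
    Nat.casesOn n'.unpair.1 (u1 q.1 n'.unpair.2) (fun _ => u2 q.1 n'.unpair.2)) Computable.snd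
    (h1.comp Computable.fst) ?_
  have e1 : Computable (fun q : (α × ℕ) × ℕ => q.2.unpair.1) :=
    Computable.fst.comp (Computable.unpair.comp Computable.snd)
  have e2 : Computable (fun q : (α × ℕ) × ℕ => q.2.unpair.2) :=
    Computable.snd.comp (Computable.unpair.comp Computable.snd)
  have e3 : Computable (fun q : (α × ℕ) × ℕ => q.1.1) := Computable.fst.comp Computable.fst
  refine Computable.nat_casesOn (f := fun q : (α × ℕ) × ℕ => q.2.unpair.1)
    (g := fun q => u1 q.1.1 q.2.unpair.2) (h := fun q _ => u2 q.1.1 q.2.unpair.2) e1 ?_ ?_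
  · exact h2.comp e3 e2
  · exact (h3.comp e3 e2).comp Computable.fst

theorem exists_g (A1 : ℕ × ℕ × ℕ → ℕ) (hA1 : Computable A1) (U : (ℕ × ℕ × ℕ) × ℕ × ℕ × ℕ → ℕ)
    (hU : Computable U) : ∃ g : (ℕ × ℕ × ℕ) × ℕ × ℕ → ℕ, Computable g ∧ ∀ a n,
    φ (g a) n = Part.some (gval (A1 a.1) (fun i => U (a.1, a.2.1, a.2.2, i)) (fun i => U (a.1, a.2.2, a.2.1, i)) n) := by
  apply smn (f := fun (a : (ℕ × ℕ × ℕ) × ℕ × ℕ) (n : ℕ) =>
    Part.some (gval (A1 a.1) (fun i => U (a.1, a.2.1, a.2.2, i)) (fun i => U (a.1, a.2.2, a.2.1, i)) n))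
  have f1 : Computable (fun q : ((ℕ × ℕ × ℕ) × ℕ × ℕ) × ℕ => q.1.1) := Computable.fst.comp Computable.fst
  have f2 : Computable (fun q : ((ℕ × ℕ × ℕ) × ℕ × ℕ) × ℕ => q.1.2) := Computable.snd.comp Computable.fst
  have f3 : Computable (fun q : ((ℕ × ℕ × ℕ) × ℕ × ℕ) × ℕ => q.1.2.1) := Computable.fst.comp f2
  have f4 : Computable (fun q : ((ℕ × ℕ × ℕ) × ℕ × ℕ) × ℕ => q.1.2.2) := Computable.snd.comp f2
  have h1 : Computable₂ (fun (a : (ℕ × ℕ × ℕ) × ℕ × ℕ) (i : ℕ) => U (a.1, a.2.1, a.2.2, i)) :=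
    hU.comp (Computable.pair f1 (Computable.pair f3 (Computable.pair f4 Computable.snd)))
  have h2 : Computable₂ (fun (a : (ℕ × ℕ × ℕ) × ℕ × ℕ) (i : ℕ) => U (a.1, a.2.2, a.2.1, i)) :=
    hU.comp (Computable.pair f1 (Computable.pair f4 (Computable.pair f3 Computable.snd)))
  have h3 : Computable (fun (a : (ℕ × ℕ × ℕ) × ℕ × ℕ) => A1 a.1) := hA1.comp Computable.fst
  have h4 := gval_comp h3 h1 h2
  exact Computable.partrec h4

theorem exists_c (g : (ℕ × ℕ × ℕ) × ℕ × ℕ → ℕ) (hg : Computable g) : ∃ c : ℕ × ℕ × ℕ → ℕ, Computable c ∧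
    ∀ d p, φ (c d) p = Part.some (g (d, p.unpair.1, p.unpair.2)) := by
  apply smn (f := fun (d : ℕ × ℕ × ℕ) (p : ℕ) => Part.some (g (d, p.unpair.1, p.unpair.2)))
  have f1 : Computable (fun p : (ℕ × ℕ × ℕ) × ℕ => p.2.unpair) := Computable.unpair.comp Computable.snd
  have f2 : Computable (fun p : (ℕ × ℕ × ℕ) × ℕ => p.2.unpair.1) := Computable.fst.comp f1
  have f3 : Computable (fun p : (ℕ × ℕ × ℕ) × ℕ => p.2.unpair.2) := Computable.snd.comp f1
  have f4 : Computable (fun p : (ℕ × ℕ × ℕ) × ℕ => g (p.1, p.2.unpair.1, p.2.unpair.2)) :=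
    hg.comp (Computable.pair Computable.fst (Computable.pair f2 f3))
  exact f4.partrec

theorem uval_zero (c t1 t0 e e' i : ℕ) : uval c t1 t0 e e' i 0 = Part.some t0 := rfl

theorem uval_none (c t1 t0 e e' i j : ℕ) (h : enum e i = none) :
    uval c t1 t0 e e' i (j + 1) = Part.some t1 := by
  unfold uval
  rw [h]

theorem uval_some_none (c t1 t0 e e' i j v : ℕ) (h : enum e i = some v) (h' : enum e' j = none) :
    uval c t1 t0 e e' i (j + 1) = Part.some t0 := by
  change (Option.casesOn (enum e i) (Part.some t1) fun v =>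
      Option.casesOn (enum e' j) (Part.some t0) fun w => φ c (Nat.pair v w) : Part ℕ) = _
  rw [h, h']

theorem uval_some_some (c t1 t0 e e' i j v w : ℕ) (h : enum e i = some v) (h' : enum e' j = some w) :
    uval c t1 t0 e e' i (j + 1) = φ c (Nat.pair v w) := by
  change (Option.casesOn (enum e i) (Part.some t1) fun v =>
      Option.casesOn (enum e' j) (Part.some t0) fun w => φ c (Nat.pair v w) : Part ℕ) = _
  rw [h, h']

theorem gval_zero (a1 : ℕ) (u1 u2 : ℕ → ℕ) : gval a1 u1 u2 0 = a1 := rfl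

theorem gval_left (a1 : ℕ) (u1 u2 : ℕ → ℕ) (n : ℕ) (h : n.unpair.1 = 0) :
    gval a1 u1 u2 (n + 1) = u1 n.unpair.2 := by
  change (Nat.casesOn n.unpair.1 (u1 n.unpair.2) (fun _ => u2 n.unpair.2) : ℕ) = _
  rw [h]
  rfl

theorem gval_right (a1 : ℕ) (u1 u2 : ℕ → ℕ) (n b : ℕ) (h : n.unpair.1 = b + 1) :
    gval a1 u1 u2 (n + 1) = u2 n.unpair.2 := by
  change (Nat.casesOn n.unpair.1 (u1 n.unpair.2) (fun _ => u2 n.unpair.2) : ℕ) = _
  rw [h]

theorem step : S_STEP := by
  obtain ⟨two, htwo, rtwo⟩ := exists_two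
  obtain ⟨U, hU, HU⟩ := exists_U
  -- the index `g'`
  obtain ⟨A1, eA1⟩ : ∃ A1 : ℕ × ℕ × ℕ → ℕ, A1 = fun d => two d.2.2 d.2.1 := ⟨_, rfl⟩
  obtain ⟨A0, eA0⟩ : ∃ A0 : ℕ × ℕ × ℕ → ℕ, A0 = fun d => two d.2.2 d.2.2 := ⟨_, rfl⟩
  have hA1 : Computable A1 := by
    rw [eA1]
    exact htwo.comp (Computable.snd.comp Computable.snd) (Computable.fst.comp Computable.snd)
  have hA0 : Computable A0 := by
    rw [eA0]
    exact htwo.comp (Computable.snd.comp Computable.snd) (Computable.snd.comp Computable.snd)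
  have rA1 : ∀ d, rng (A1 d) = {d.2.2, d.2.1} := fun d => by rw [eA1]; exact rtwo _ _
  have rA0 : ∀ d, rng (A0 d) = {d.2.2, d.2.2} := fun d => by rw [eA0]; exact rtwo _ _
  obtain ⟨g, hg, Hg⟩ := exists_g A1 hA1 U hU
  obtain ⟨c, hc, Hc⟩ := exists_c g hg
  refine ⟨fun d => (c d, two (A1 d) (A1 d), two (A1 d) (A0 d)), ?_, ?_⟩
  · exact Computable.pair hc (Computable.pair (htwo.comp hA1 hA1) (htwo.comp hA1 hA0))
  intro G H d hG hH hd
  have hJ := jump_equiv H
  obtain ⟨hne, htot⟩ := hd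
  -- `A1` and `A0` are different
  have hA : ¬ jump H (A1 d) (A0 d) := by
    rw [jump_rng hH]
    rintro ⟨h1, -⟩
    obtain ⟨w, hw, h2⟩ := h1 d.2.1 (by rw [rA1]; exact Or.inr rfl)
    simp only [rA0, Set.mem_insert_iff, Set.mem_singleton_iff, or_self] at hw
    rw [hw] at h2
    exact hne h2
  -- the ranges of the `U`
  have hU1 : ∀ e e' i, (∀ v, enum e i = some v → ∃ w ∈ rng e', G v w) →
      jump H (U (d, e, e', i)) (A1 d) := by
    intro e e' i hyp
    rw [jump_rng hH]
    constructor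
    · rintro v ⟨j, hj⟩
      rw [HU] at hj
      rw [rA1]
      rcases j with _ | j'
      · rw [uval_zero, Part.mem_some_iff] at hj
        exact ⟨d.2.2, Or.inl rfl, by rw [hj]; exact hH.refl _⟩
      · rcases he : enum e i with _ | v0
        · rw [uval_none _ _ _ _ _ _ _ he, Part.mem_some_iff] at hj
          exact ⟨d.2.1, Or.inr rfl, by rw [hj]; exact hH.refl _⟩
        · rcases he' : enum e' j' with _ | w0
          · rw [uval_some_none _ _ _ _ _ _ _ _ he he', Part.mem_some_iff] at hj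
            exact ⟨d.2.2, Or.inl rfl, by rw [hj]; exact hH.refl _⟩
          · rw [uval_some_some _ _ _ _ _ _ _ _ _ he he'] at hj
            obtain ⟨z, hz, z1, z0⟩ := htot v0 w0
            obtain rfl := Part.mem_unique hj hz
            by_cases hvw : G v0 w0
            · exact ⟨d.2.1, Or.inr rfl, z1 hvw⟩
            · exact ⟨d.2.2, Or.inl rfl, z0 hvw⟩
    · intro v hv
      rw [rA1] at hv
      rcases hv with rfl | hv
      · exact ⟨d.2.2, ⟨0, by rw [HU]; exact Part.mem_some _⟩, hH.refl _⟩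
      · rw [Set.mem_singleton_iff] at hv
        subst hv
        rcases he : enum e i with _ | v0
        · refine ⟨d.2.1, ⟨1, ?_⟩, hH.refl _⟩
          rw [HU, uval_none _ _ _ _ _ _ _ he]
          exact Part.mem_some _
        · obtain ⟨w, hw, hvw⟩ := hyp v0 he
          obtain ⟨j', hj'⟩ := (mem_rng_iff e' w).1 hw
          obtain ⟨z, hz, z1, z0⟩ := htot v0 w
          refine ⟨z, ⟨j' + 1, ?_⟩, hH.symm (z1 hvw)⟩
          rw [HU, uval_some_some _ _ _ _ _ _ _ _ _ he hj']
          exact hz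
  have hU0 : ∀ e e' i v, enum e i = some v → (∀ w ∈ rng e', ¬ G v w) →
      jump H (U (d, e, e', i)) (A0 d) := by
    intro e e' i v0 he hyp
    rw [jump_rng hH]
    constructor
    · rintro v ⟨j, hj⟩
      rw [HU] at hj
      rw [rA0]
      refine ⟨d.2.2, Or.inl rfl, ?_⟩
      rcases j with _ | j'
      · rw [uval_zero, Part.mem_some_iff] at hj
        rw [hj]; exact hH.refl _
      · rcases he' : enum e' j' with _ | w0
        · rw [uval_some_none _ _ _ _ _ _ _ _ he he', Part.mem_some_iff] at hj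
          rw [hj]; exact hH.refl _
        · rw [uval_some_some _ _ _ _ _ _ _ _ _ he he'] at hj
          obtain ⟨z, hz, z1, z0⟩ := htot v0 w0
          obtain rfl := Part.mem_unique hj hz
          exact z0 (hyp w0 ((mem_rng_iff e' w0).2 ⟨j', he'⟩))
    · intro v hv
      simp only [rA0, Set.mem_insert_iff, Set.mem_singleton_iff, or_self] at hv
      exact ⟨d.2.2, ⟨0, by rw [HU]; exact Part.mem_some _⟩, by rw [hv]; exact hH.refl _⟩
  refine ⟨?_, ?_⟩
  · simp only
    intro h
    rw [jump_rng hJ] at h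
    obtain ⟨w, hw, h2⟩ := h.2 (A0 d) (by rw [rtwo]; exact Or.inr rfl)
    simp only [rtwo, Set.mem_insert_iff, Set.mem_singleton_iff, or_self] at hw
    rw [hw] at h2
    exact hA (hJ.symm h2)
  · intro x y
    refine ⟨g (d, x, y), ?_, ?_, ?_⟩
    · rw [Hc, Nat.unpair_pair]
      exact Part.mem_some _
    · intro hxy
      rw [jump_rng hG] at hxy
      simp only
      rw [jump_rng hJ]
      constructor
      · rintro v ⟨n, hn⟩
        rw [Hg, Part.mem_some_iff] at hn
        refine ⟨A1 d, by rw [rtwo]; exact Or.inl rfl, ?_⟩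
        rcases n with _ | n'
        · simp only at hn
          rw [hn]
          exact hJ.refl _
        · rcases hb : n'.unpair.1 with _ | b
          · rw [gval_left _ _ _ _ hb] at hn
            rw [hn]
            exact hU1 _ _ _ (fun v hv => hxy.1 v ((mem_rng_iff _ _).2 ⟨_, hv⟩))
          · rw [gval_right _ _ _ _ _ hb] at hn
            rw [hn]
            exact hU1 _ _ _ (fun v hv => hxy.2 v ((mem_rng_iff _ _).2 ⟨_, hv⟩))
      · intro v hv
        simp only [rtwo, Set.mem_insert_iff, Set.mem_singleton_iff, or_self] at hv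
        refine ⟨A1 d, ⟨0, ?_⟩, by rw [hv]; exact hJ.refl _⟩
        rw [Hg]
        exact Part.mem_some _
    · intro hxy
      simp only
      rw [jump_rng hJ]
      constructor
      · rintro v ⟨n, hn⟩
        rw [Hg, Part.mem_some_iff] at hn
        simp only [rtwo]
        have hcase : ∀ e e' i, jump H (U (d, e, e', i)) (A1 d) ∨ jump H (U (d, e, e', i)) (A0 d) := by
          intro e e' i
          by_cases h : ∀ v, enum e i = some v → ∃ w ∈ rng e', G v w
          · exact Or.inl (hU1 _ _ _ h)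
          · push Not at h
            obtain ⟨v, hv, hw⟩ := h
            exact Or.inr (hU0 _ _ _ v hv hw)
        have hfin : ∀ e e' i, v = U (d, e, e', i) → ∃ w ∈ ({A1 d, A0 d} : Set ℕ), jump H v w := by
          intro e e' i hv
          rcases hcase e e' i with h | h
          · exact ⟨A1 d, Or.inl rfl, by rw [hv]; exact h⟩
          · exact ⟨A0 d, Or.inr rfl, by rw [hv]; exact h⟩
        rcases n with _ | n'
        · simp only at hn
          exact ⟨A1 d, Or.inl rfl, by rw [hn]; exact hJ.refl _⟩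
        · rcases hb : n'.unpair.1 with _ | b
          · rw [gval_left _ _ _ _ hb] at hn
            exact hfin _ _ _ hn
          · rw [gval_right _ _ _ _ _ hb] at hn
            exact hfin _ _ _ hn
      · intro v hv
        simp only [rtwo] at hv
        rcases hv with rfl | hv
        · exact ⟨A1 d, ⟨0, by rw [Hg]; exact Part.mem_some _⟩, hJ.refl _⟩
        · rw [Set.mem_singleton_iff] at hv
          subst hv
          rw [jump_rng hG] at hxy
          have h2 : (∃ v ∈ rng x, ∀ w ∈ rng y, ¬ G v w) ∨ (∃ v ∈ rng y, ∀ w ∈ rng x, ¬ G v w) := by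
            by_contra hcon
            push Not at hcon
            exact hxy hcon
          rcases h2 with ⟨v, hv, hw⟩ | ⟨v, hv, hw⟩
          · obtain ⟨i, hi⟩ := (mem_rng_iff _ _).1 hv
            refine ⟨U (d, x, y, i), ⟨Nat.pair 0 i + 1, ?_⟩, hJ.symm (hU0 _ _ _ v hi hw)⟩
            rw [Hg, gval_left _ _ _ _ (by rw [Nat.unpair_pair]), Nat.unpair_pair]
            exact Part.mem_some _
          · obtain ⟨i, hi⟩ := (mem_rng_iff _ _).1 hv
            refine ⟨U (d, y, x, i), ⟨Nat.pair 1 i + 1, ?_⟩, hJ.symm (hU0 _ _ _ v hi hw)⟩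
            rw [Hg, gval_right _ _ _ _ 0 (by rw [Nat.unpair_pair]), Nat.unpair_pair]
            exact Part.mem_some _

end Pool.Agent.L0h39.FS
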