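import Pool.Agent.L0h39.FS.Step

/-!
# FS: the module SUM (for helper18)
-/

set_option autoImplicit false

namespace Pool.Agent.L0h39.FS

open Nat.Partrec (Code)
open Pool.Agent.L0h18.FS

/-- an index of a computable function -/
theorem exists_index {h : ℕ → ℕ} (hh : Computable h) : ∃ e, ∀ n, φ e n = Part.some (h n) := by
  obtain ⟨s, -, hs⟩ := smn (α := Unit) (f := fun _ n => Part.some (h n))
    ((hh.comp Computable.snd).partrec)
  exact ⟨s (), fun n => hs () n⟩

theorem lt_comp {α : Type} [Primcodable α] {f g : α → ℕ} (hf : Computable f) (hg : Computable g) :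
    Computable (fun a => decide (f a < g a)) := by
  have h : Primrec₂ (fun a b : ℕ => decide (a < b)) := Primrec.nat_lt.decide
  exact h.to_comp.comp hf hg

theorem eq_comp {α : Type} [Primcodable α] {f g : α → ℕ} (hf : Computable f) (hg : Computable g) :
    Computable (fun a => decide (f a = g a)) := by
  have h : Primrec₂ (fun a b : ℕ => decide (a = b)) := Primrec.eq.decide
  exact h.to_comp.comp hf hg

/-- indices of constant functions -/
theorem exists_cst : ∃ s : ℕ → ℕ, Computable s ∧ ∀ x n, φ (s x) n = Part.some x := by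
  apply smn (f := fun x (_ : ℕ) => Part.some x)
  exact Computable.partrec (f := fun p : ℕ × ℕ => p.1) Computable.fst

theorem jump_cst {R : ℕ → ℕ → Prop} (hR : Equivalence R) {s : ℕ → ℕ} (hs : ∀ x n, φ (s x) n = Part.some x)
    (x y : ℕ) : jump R (s x) (s y) ↔ R x y := by
  have hr : ∀ x, rng (s x) = {x} := by
    intro x
    ext v
    unfold rng
    simp only [Set.mem_ofPred_eq, hs, Part.mem_some_iff, Set.mem_singleton_iff]
    exact ⟨fun ⟨_, h⟩ => h, fun h => ⟨0, h⟩⟩
  rw [jump_rng hR, hr, hr]
  simp only [Set.mem_singleton_iff, forall_eq, exists_eq_left]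
  exact ⟨fun h => h.1, fun h => ⟨h, hR.symm h⟩⟩

theorem jump_cst_iter {G : ℕ → ℕ → Prop} (hG : Equivalence G) {s : ℕ → ℕ}
    (hs : ∀ x n, φ (s x) n = Part.some x) (m j x y : ℕ) :
    jump^[m + j] G (s^[j] x) (s^[j] y) ↔ jump^[m] G x y := by
  induction j with
  | zero => rfl
  | succ j ih =>
    rw [← ih, Function.iterate_succ_apply', Function.iterate_succ_apply', ← Nat.add_assoc,
      Function.iterate_succ_apply']
    exact jump_cst (iter_equiv hG _) hs _ _

theorem iter_comp {s : ℕ → ℕ} (hs : Computable s) : Computable₂ (fun (j x : ℕ) => s^[j] x) := by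
  have h : Computable (fun p : ℕ × ℕ => (Nat.rec p.2 (fun _ IH => s IH) p.1 : ℕ)) := by
    refine Computable.nat_rec (f := fun p : ℕ × ℕ => p.1) (g := fun p => p.2) (h := fun _ q => s q.2)
      Computable.fst Computable.snd ?_
    exact hs.comp (Computable.snd.comp Computable.snd)
  refine h.of_eq ?_
  rintro ⟨j, x⟩
  simp only
  induction j with
  | zero => rfl
  | succ j ih => rw [Function.iterate_succ_apply', ← ih]

/-- the value at `j` prescribed by the list `l`, with the default `T` -/
def V (t0 t1 : ℕ → ℕ) (T : ℕ → Part ℕ) (l : List ℕ) (j : ℕ) : Part ℕ :=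
  cond (decide (j < l.length)) (Part.some (Nat.casesOn (l.getD j 0) (t0 j) (fun _ => t1 j))) (T j)

theorem V_partrec {α : Type} [Primcodable α] {t0 t1 : ℕ → ℕ} (h0 : Computable t0) (h1 : Computable t1)
    {T : α → ℕ → Part ℕ} (hT : Partrec₂ T) :
    Partrec₂ (fun (a : α × List ℕ) (j : ℕ) => V t0 t1 (T a.1) a.2 j) := by
  unfold V
  have e1 : Computable (fun p : (α × List ℕ) × ℕ => p.1.1) := Computable.fst.comp Computable.fst
  have e2 : Computable (fun p : (α × List ℕ) × ℕ => p.1.2) := Computable.snd.comp Computable.fst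
  have e3 : Computable (fun p : (α × List ℕ) × ℕ => p.1.2.length) := Computable.list_length.comp e2
  have e4 : Computable (fun p : (α × List ℕ) × ℕ => decide (p.2 < p.1.2.length)) := lt_comp Computable.snd e3
  have e5 : Computable (fun p : (α × List ℕ) × ℕ => p.1.2.getD p.2 0) :=
    (Primrec.list_getD (0 : ℕ)).to_comp.comp e2 Computable.snd
  have e6 : Computable (fun p : (α × List ℕ) × ℕ => t0 p.2) := h0.comp Computable.snd
  have e7 : Computable (fun p : (α × List ℕ) × ℕ => t1 p.2) := h1.comp Computable.snd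
  have e8 : Computable (fun p : (α × List ℕ) × ℕ =>
      (Nat.casesOn (p.1.2.getD p.2 0) (t0 p.2) (fun _ => t1 p.2) : ℕ)) :=
    Computable.nat_casesOn (h := fun (p : (α × List ℕ) × ℕ) _ => t1 p.2) e5 e6 (e7.comp Computable.fst)
  have e9 : Partrec (fun p : (α × List ℕ) × ℕ =>
      (Part.some (Nat.casesOn (p.1.2.getD p.2 0) (t0 p.2) (fun _ => t1 p.2) : ℕ) : Part ℕ)) := e8.partrec
  have e10 : Partrec (fun p : (α × List ℕ) × ℕ => T p.1.1 p.2) := Partrec₂.comp hT e1 Computable.snd
  exact Partrec.cond e4 e9 e10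

/-- the indices `r(l)` and of `l ↦ r(l)`, uniformly -/
theorem exists_fam {α : Type} [Primcodable α] {t0 t1 : ℕ → ℕ} (h0 : Computable t0) (h1 : Computable t1)
    {T : α → ℕ → Part ℕ} (hT : Partrec₂ T) : ∃ (s : α × List ℕ → ℕ) (g : α → ℕ), Computable g ∧
    (∀ a l j, φ (s (a, l)) j = V t0 t1 (T a) l j) ∧
    ∀ a m, φ (g a) m = Part.some (s (a, Denumerable.ofNat (List ℕ) m)) := by
  obtain ⟨s, hs, Hs⟩ := smn (V_partrec h0 h1 hT)
  obtain ⟨g, hg, Hg⟩ := smn (α := α) (f := fun a m => Part.some (s (a, Denumerable.ofNat (List ℕ) m))) (by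
    have e : Computable (fun p : α × ℕ => s (p.1, Denumerable.ofNat (List ℕ) p.2)) :=
      hs.comp (Computable.pair Computable.fst ((Computable.ofNat (List ℕ)).comp Computable.snd))
    exact e.partrec)
  exact ⟨s, g, hg, fun a l j => Hs (a, l) j, Hg⟩

section
variable (t0 t1 : ℕ → ℕ) (T : ℕ → Part ℕ) (l : List ℕ) (j : ℕ)

theorem V_ge (h : l.length ≤ j) : V t0 t1 T l j = T j := by
  unfold V
  rw [decide_eq_false (by omega)]
  rfl

theorem V_lt (T' : ℕ → Part ℕ) (l' : List ℕ) (h : j < l.length) :
    V t0 t1 T l j = V t0 t1 T' (l ++ l') j ∧ ∃ v, V t0 t1 T l j = Part.some v := by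
  unfold V
  rw [decide_eq_true h, decide_eq_true (show j < (l ++ l').length by rw [List.length_append]; omega)]
  have : (l ++ l').getD j 0 = l.getD j 0 := by
    rw [List.getD_append _ _ _ _ h]
  rw [this]
  exact ⟨rfl, _, rfl⟩

theorem V_rep (k b : ℕ) (h : l.length ≤ j) (h' : j < (l ++ List.replicate k b).length) :
    V t0 t1 T (l ++ List.replicate k b) j = Part.some (Nat.casesOn b (t0 j) (fun _ => t1 j)) := by
  unfold V
  rw [decide_eq_true h']
  have h2 : j - l.length < (List.replicate k b).length := by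
    rw [List.length_append] at h'
    omega
  have : (l ++ List.replicate k b).getD j 0 = b := by
    rw [List.getD_append_right _ _ _ _ h, List.getD_eq_getElem _ _ h2, List.getElem_replicate]
  rw [this]
  rfl

end

/-- the values of `q` -/
def Q (c : ℕ → ℕ) (s : ℕ → ℕ) (k : ℕ) (t1 : ℕ → ℕ) (x y : ℕ) (j : ℕ) : Part ℕ :=
  cond (decide (j < x.unpair.1)) (Part.some (t1 j))
    ((φ (c j) (Nat.pair (s^[j - x.unpair.1] x.unpair.2) (s^[j - x.unpair.1] y.unpair.2))).map
      (fun z => Nat.pair (2 * j + k) z))

theorem Q_partrec {c s : ℕ → ℕ} (hc : Computable c) (hs : Computable s) (k : ℕ) {t1 : ℕ → ℕ}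
    (h1 : Computable t1) : Partrec₂ (fun (a : ℕ × ℕ) (j : ℕ) => Q c s k t1 a.1 a.2 j) := by
  unfold Q
  have u1 : Computable (fun p : (ℕ × ℕ) × ℕ => p.1.1.unpair) :=
    Computable.unpair.comp (Computable.fst.comp Computable.fst)
  have u2 : Computable (fun p : (ℕ × ℕ) × ℕ => p.1.2.unpair) :=
    Computable.unpair.comp (Computable.snd.comp Computable.fst)
  have e1 : Computable (fun p : (ℕ × ℕ) × ℕ => p.1.1.unpair.1) := Computable.fst.comp u1
  have e2 : Computable (fun p : (ℕ × ℕ) × ℕ => p.1.1.unpair.2) := Computable.snd.comp u1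
  have e3 : Computable (fun p : (ℕ × ℕ) × ℕ => p.1.2.unpair.2) := Computable.snd.comp u2
  have e4 : Computable (fun p : (ℕ × ℕ) × ℕ => decide (p.2 < p.1.1.unpair.1)) := lt_comp Computable.snd e1
  have e5 : Computable (fun p : (ℕ × ℕ) × ℕ => p.2 - p.1.1.unpair.1) :=
    Primrec.nat_sub.to_comp.comp Computable.snd e1
  have e6 : Computable (fun p : (ℕ × ℕ) × ℕ => s^[p.2 - p.1.1.unpair.1] p.1.1.unpair.2) :=
    (iter_comp hs).comp e5 e2
  have e7 : Computable (fun p : (ℕ × ℕ) × ℕ => s^[p.2 - p.1.1.unpair.1] p.1.2.unpair.2) :=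
    (iter_comp hs).comp e5 e3
  have e8 : Computable (fun p : (ℕ × ℕ) × ℕ => Nat.pair (s^[p.2 - p.1.1.unpair.1] p.1.1.unpair.2)
      (s^[p.2 - p.1.1.unpair.1] p.1.2.unpair.2)) := Primrec₂.natPair.to_comp.comp e6 e7
  have e9 : Computable (fun p : (ℕ × ℕ) × ℕ => c p.2) := hc.comp Computable.snd
  have e10 : Computable (fun p : (ℕ × ℕ) × ℕ => t1 p.2) := h1.comp Computable.snd
  have e11 : Computable (fun q : ((ℕ × ℕ) × ℕ) × ℕ => 2 * q.1.2 + k) :=
    (Primrec.nat_add.to_comp.comp (Primrec.nat_double.to_comp.comp (Computable.snd.comp Computable.fst))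
      (Computable.const k))
  have e12 : Computable₂ (fun (p : (ℕ × ℕ) × ℕ) (z : ℕ) => Nat.pair (2 * p.2 + k) z) :=
    Primrec₂.natPair.to_comp.comp e11 Computable.snd
  exact Partrec.cond (f := fun p : (ℕ × ℕ) × ℕ => Part.some (t1 p.2))
    (g := fun p => (φ (c p.2) (Nat.pair (s^[p.2 - p.1.1.unpair.1] p.1.1.unpair.2)
      (s^[p.2 - p.1.1.unpair.1] p.1.2.unpair.2))).map (fun z => Nat.pair (2 * p.2 + k) z))
    e4 e10.partrec (Partrec.map (Partrec₂.comp φ_partrec e9 e8) e12)

theorem sum : S_SUM := by
  rintro ⟨st, hst, Hst⟩ G hG ⟨k, d0, hd0⟩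
  -- the sequence of truth data
  obtain ⟨D, eD⟩ : ∃ D : ℕ → ℕ × ℕ × ℕ, D = fun n => (Nat.rec d0 (fun _ d => st d) n : ℕ × ℕ × ℕ) := ⟨_, rfl⟩
  have hD : Computable D := by
    rw [eD]
    refine Computable.nat_rec (f := fun n : ℕ => n) (g := fun _ => d0) (h := fun _ q => st q.2)
      Computable.id (Computable.const d0) ?_
    exact hst.comp (Computable.snd.comp Computable.snd)
  have D0 : D 0 = d0 := by rw [eD]; rfl
  have DS : ∀ n, D (n + 1) = st (D n) := by intro n; rw [eD]
  have HD : ∀ n, TD (jump^[n] G) (jump^[2 * n + k] G) (D n) := by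
    intro n
    induction n with
    | zero => rw [D0, Nat.mul_zero, Nat.zero_add]; exact hd0
    | succ n ih =>
      have h := Hst _ _ _ (iter_equiv hG n) (iter_equiv hG (2 * n + k)) ih
      rw [← DS, ← Function.iterate_succ_apply' jump n, ← Function.iterate_succ_apply' jump (2 * n + k),
        ← Function.iterate_succ_apply' jump] at h
      have e : 2 * (n + 1) + k = 2 * n + k + 1 + 1 := by ring
      rw [e]
      exact h
  obtain ⟨t1, et1⟩ : ∃ t1 : ℕ → ℕ, t1 = fun n => Nat.pair (2 * n + k) (D n).2.1 := ⟨_, rfl⟩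
  obtain ⟨t0, et0⟩ : ∃ t0 : ℕ → ℕ, t0 = fun n => Nat.pair (2 * n + k) (D n).2.2 := ⟨_, rfl⟩
  have e11 : Computable (fun n : ℕ => 2 * n + k) :=
    (Primrec.nat_add.to_comp.comp (Primrec.nat_double.to_comp.comp Computable.id) (Computable.const k))
  have h1 : Computable t1 := by
    rw [et1]
    exact Primrec₂.natPair.to_comp.comp e11 (Computable.fst.comp (Computable.snd.comp hD))
  have h0 : Computable t0 := by
    rw [et0]
    exact Primrec₂.natPair.to_comp.comp e11 (Computable.snd.comp (Computable.snd.comp hD))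
  obtain ⟨cs, hcs, Hcs⟩ := exists_cst
  have hFe : Equivalence (Om G) := Om_equiv hG
  have hJe : Equivalence (jump (Om G)) := jump_equiv _
  have hc : Computable (fun n => (D n).1) := Computable.fst.comp hD
  obtain ⟨s0, g0, hg0, Hs0, Hg0⟩ := exists_fam (α := Unit) h0 h1 (T := fun _ j => Part.some (t0 j))
    ((h0.comp Computable.snd).partrec)
  obtain ⟨s1, g1, hg1, Hs1, Hg1⟩ := exists_fam (α := Unit) h0 h1 (T := fun _ j => Part.some (t1 j))
    ((h1.comp Computable.snd).partrec)
  obtain ⟨sq, gq, hgq, Hsq, Hgq⟩ := exists_fam (α := ℕ × ℕ) h0 h1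
    (T := fun a j => Q (fun n => (D n).1) cs k t1 a.1 a.2 j) (Q_partrec hc hcs k h1)
  obtain ⟨cc, Hcc⟩ := exists_index (h := fun p => cond (decide (p.unpair.1.unpair.1 = p.unpair.2.unpair.1))
    (gq (p.unpair.1, p.unpair.2)) (g0 ())) (by
      have u1 : Computable (fun p : ℕ => p.unpair.1) := Computable.fst.comp Computable.unpair
      have u2 : Computable (fun p : ℕ => p.unpair.2) := Computable.snd.comp Computable.unpair
      have u3 : Computable (fun p : ℕ => p.unpair.1.unpair.1) :=
        Computable.fst.comp (Computable.unpair.comp u1)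
      have u4 : Computable (fun p : ℕ => p.unpair.2.unpair.1) :=
        Computable.fst.comp (Computable.unpair.comp u2)
      have u5 : Computable (fun p : ℕ => gq (p.unpair.1, p.unpair.2)) := hgq.comp (Computable.pair u1 u2)
      exact Computable.cond (eq_comp u3 u4) u5 (Computable.const _))
  -- `F` on the targets
  have hF : ∀ j z w, Om G (Nat.pair (2 * j + k) z) (Nat.pair (2 * j + k) w) ↔ jump^[2 * j + k] G z w := by
    intro j z w
    unfold Om Pool.Agent.L0h18.FS.sum
    simp only [Nat.unpair_pair, true_and]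
  have hF10 : ∀ i j, ¬ Om G (t1 i) (t0 j) := by
    intro i j h
    rw [et1, et0] at h
    by_cases hij : i = j
    · subst hij
      simp only at h
      rw [hF] at h
      exact (HD i).1 h
    · unfold Om Pool.Agent.L0h18.FS.sum at h
      simp only [Nat.unpair_pair] at h
      omega
  -- the values of `Q`
  have HQ : ∀ x y : ℕ, x.unpair.1 = y.unpair.1 → ∀ j, x.unpair.1 ≤ j →
      ∃ v ∈ Q (fun n => (D n).1) cs k t1 x y j, (Om G x y → Om G v (t1 j)) ∧ (¬ Om G x y → Om G v (t0 j)) := by
    intro x y hxy j hj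
    obtain ⟨z, hz, z1, z0⟩ := (HD j).2 (cs^[j - x.unpair.1] x.unpair.2) (cs^[j - x.unpair.1] y.unpair.2)
    have hiff : jump^[j] G (cs^[j - x.unpair.1] x.unpair.2) (cs^[j - x.unpair.1] y.unpair.2) ↔ Om G x y := by
      have e : j = x.unpair.1 + (j - x.unpair.1) := by omega
      have h := jump_cst_iter hG Hcs x.unpair.1 (j - x.unpair.1) x.unpair.2 y.unpair.2
      rw [← e] at h
      rw [h]
      unfold Om Pool.Agent.L0h18.FS.sum
      simp only [hxy, true_and]
    rw [hiff] at z1 z0
    refine ⟨Nat.pair (2 * j + k) z, ?_, ?_, ?_⟩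
    · unfold Q
      rw [decide_eq_false (by omega), cond_false]
      exact Part.mem_map _ hz
    · intro h
      rw [et1, hF]
      exact z1 h
    · intro h
      rw [et0, hF]
      exact z0 h
  have HQ' : ∀ x y : ℕ, ∀ j, j < x.unpair.1 → Q (fun n => (D n).1) cs k t1 x y j = Part.some (t1 j) := by
    intro x y j hj
    unfold Q
    rw [decide_eq_true hj, cond_true]
  refine ⟨2, (cc, g1 (), g0 ()), ?_, ?_⟩
  · change ¬ jump (jump (Om G)) (g1 ()) (g0 ())
    intro h
    rw [jump_rng hJe] at h
    obtain ⟨w, ⟨m, hm⟩, h2⟩ := h.1 (s1 ((), [])) ⟨Encodable.encode ([] : List ℕ), by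
      rw [Hg1, Denumerable.ofNat_encode]; exact Part.mem_some _⟩
    rw [Hg0, Part.mem_some_iff] at hm
    rw [hm] at h2
    obtain ⟨l, hl⟩ : ∃ l, l = Denumerable.ofNat (List ℕ) m := ⟨_, rfl⟩
    rw [← hl, jump_rng hFe] at h2
    obtain ⟨w, ⟨j, hj⟩, h3⟩ := h2.1 (t1 l.length) ⟨l.length, by
      rw [Hs1, V_ge _ _ _ _ _ (by simp)]; exact Part.mem_some _⟩
    rw [Hs0] at hj
    by_cases hjl : l.length ≤ j
    · rw [V_ge _ _ _ _ _ hjl, Part.mem_some_iff] at hj
      rw [hj] at h3
      exact hF10 _ _ h3
    · push Not at hjl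
      unfold V at hj
      rw [decide_eq_true hjl, cond_true, Part.mem_some_iff] at hj
      rcases hb : l.getD j 0 with _ | b
      · rw [hb] at hj
        simp only at hj
        rw [hj] at h3
        exact hF10 _ _ h3
      · rw [hb] at hj
        simp only at hj
        rw [hj, et1] at h3
        unfold Om Pool.Agent.L0h18.FS.sum at h3
        simp only [Nat.unpair_pair] at h3
        omega
  · intro x y
    change ∃ z ∈ φ cc (Nat.pair x y), (Om G x y → jump (jump (Om G)) z (g1 ())) ∧
      (¬ Om G x y → jump (jump (Om G)) z (g0 ()))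
    rw [Hcc]
    simp only [Nat.unpair_pair]
    by_cases hxy : x.unpair.1 = y.unpair.1
    · rw [decide_eq_true hxy, cond_true]
      refine ⟨_, Part.mem_some _, ?_, ?_⟩
      · intro hR
        apply jump_pointwise hJe
        intro m
        refine ⟨_, by rw [Hgq]; exact Part.mem_some _, _, by rw [Hg1]; exact Part.mem_some _, ?_⟩
        obtain ⟨l, hl⟩ : ∃ l, l = Denumerable.ofNat (List ℕ) m := ⟨_, rfl⟩
        rw [← hl]
        apply jump_pointwise hFe
        intro j
        rw [Hsq, Hs1]
        by_cases hj : j < l.length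
        · obtain ⟨e1, v, ev⟩ := V_lt t0 t1 (fun j => Q (fun n => (D n).1) cs k t1 x y j) l j
            (fun j => Part.some (t1 j)) [] hj
          rw [List.append_nil] at e1
          refine ⟨v, ?_, v, ?_, hFe.refl _⟩
          · rw [ev]; exact Part.mem_some _
          · rw [← e1, ev]; exact Part.mem_some _
        · push Not at hj
          rw [V_ge _ _ _ _ _ hj, V_ge _ _ _ _ _ hj]
          by_cases hjn : j < x.unpair.1
          · refine ⟨t1 j, ?_, t1 j, Part.mem_some _, hFe.refl _⟩
            simp only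
            rw [HQ' x y j hjn]
            exact Part.mem_some _
          · push Not at hjn
            obtain ⟨v, hv, v1, -⟩ := HQ x y hxy j hjn
            exact ⟨v, hv, t1 j, Part.mem_some _, v1 hR⟩
      · intro hR
        rw [jump_rng hJe]
        have key1 : ∀ l : List ℕ, jump (Om G) (sq ((x, y), l))
            (s0 ((), l ++ List.replicate (x.unpair.1 - l.length) 1)) := by
          intro l
          apply jump_pointwise hFe
          intro j
          rw [Hsq, Hs0]
          by_cases hj : j < l.length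
          · obtain ⟨e1, v, ev⟩ := V_lt t0 t1 (fun j => Q (fun n => (D n).1) cs k t1 x y j) l j
              (fun j => Part.some (t0 j)) (List.replicate (x.unpair.1 - l.length) 1) hj
            refine ⟨v, ?_, v, ?_, hFe.refl _⟩
            · rw [ev]; exact Part.mem_some _
            · rw [← e1, ev]; exact Part.mem_some _
          · push Not at hj
            rw [V_ge _ _ _ _ _ hj]
            by_cases hjn : j < x.unpair.1
            · refine ⟨t1 j, ?_, t1 j, ?_, hFe.refl _⟩
              · simp only
                rw [HQ' x y j hjn]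
                exact Part.mem_some _
              · rw [V_rep _ _ _ _ _ _ _ hj (by rw [List.length_append, List.length_replicate]; omega)]
                exact Part.mem_some _
            · push Not at hjn
              obtain ⟨v, hv, -, v0⟩ := HQ x y hxy j hjn
              refine ⟨v, hv, t0 j, ?_, v0 hR⟩
              rw [V_ge _ _ _ _ _ (by rw [List.length_append, List.length_replicate]; omega)]
              exact Part.mem_some _
        have key2 : ∀ l : List ℕ, jump (Om G)
            (sq ((x, y), l ++ List.replicate (x.unpair.1 - l.length) 0)) (s0 ((), l)) := by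
          intro l
          apply jump_pointwise hFe
          intro j
          rw [Hsq, Hs0]
          by_cases hj : j < l.length
          · obtain ⟨e1, v, ev⟩ := V_lt t0 t1 (fun j => Part.some (t0 j)) l j
              (fun j => Q (fun n => (D n).1) cs k t1 x y j) (List.replicate (x.unpair.1 - l.length) 0) hj
            refine ⟨v, ?_, v, ?_, hFe.refl _⟩
            · rw [← e1, ev]; exact Part.mem_some _
            · rw [ev]; exact Part.mem_some _
          · push Not at hj
            rw [V_ge t0 t1 _ l j hj]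
            by_cases hjn : j < x.unpair.1
            · refine ⟨t0 j, ?_, t0 j, Part.mem_some _, hFe.refl _⟩
              rw [V_rep _ _ _ _ _ _ _ hj (by rw [List.length_append, List.length_replicate]; omega)]
              exact Part.mem_some _
            · push Not at hjn
              obtain ⟨v, hv, -, v0⟩ := HQ x y hxy j hjn
              refine ⟨v, ?_, t0 j, Part.mem_some _, v0 hR⟩
              rw [V_ge _ _ _ _ _ (by rw [List.length_append, List.length_replicate]; omega)]
              exact hv
        constructor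
        · rintro v ⟨m, hm⟩
          rw [Hgq, Part.mem_some_iff] at hm
          rw [hm]
          refine ⟨_, ⟨Encodable.encode (Denumerable.ofNat (List ℕ) m ++
            List.replicate (x.unpair.1 - (Denumerable.ofNat (List ℕ) m).length) 1), ?_⟩, key1 _⟩
          rw [Hg0, Denumerable.ofNat_encode]
          exact Part.mem_some _
        · rintro v ⟨m, hm⟩
          rw [Hg0, Part.mem_some_iff] at hm
          rw [hm]
          refine ⟨_, ⟨Encodable.encode (Denumerable.ofNat (List ℕ) m ++
            List.replicate (x.unpair.1 - (Denumerable.ofNat (List ℕ) m).length) 0), ?_⟩,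
            hJe.symm (key2 _)⟩
          rw [Hgq, Denumerable.ofNat_encode]
          exact Part.mem_some _
    · rw [decide_eq_false hxy, cond_false]
      refine ⟨_, Part.mem_some _, ?_, fun _ => (jump_equiv _).refl _⟩
      intro h
      exact absurd h.1 hxy

end Pool.Agent.L0h39.FS
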